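import Pool.Agent.Helper92.TN.GoalsF
import Pool.Agent.Helper15.T3.SPC

/-!
# Project TN (MP_a41896_nt), packet GENI: the generic point over an extension
-/

set_option autoImplicit false

open MvPolynomial

namespace Pool.Agent.Helper48.TN.GENI

open Pool.Agent.Helper92.TN

/-- a family with a relation `g` in which the variable `b` occurs and which generates the relations: the other members are
independent -/
theorem indK {K L : Type} [Field K] [Field L] [Algebra K L] {σ : Type} [Fintype σ] [DecidableEq σ]
    {g : MvPolynomial σ K} {X : σ → L} (hg : ∀ p : MvPolynomial σ K, aeval X p = 0 → g ∣ p)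
    (b : σ) (hb : degreeOf b g ≠ 0) : AlgebraicIndepOn K X {c | c ≠ b} := by
  rw [AlgebraicIndepOn, algebraicIndependent_iff]
  intro p hp
  by_contra hp0
  let P : MvPolynomial σ K := rename (fun i : {c : σ | c ≠ b} => (i : σ)) p
  have hP0 : P ≠ 0 := by
    intro h
    apply hp0
    apply rename_injective (fun i : {c : σ | c ≠ b} => (i : σ)) Subtype.val_injective
    rw [map_zero]
    exact h
  have hPX : aeval X P = 0 := by
    show aeval X (rename _ p) = 0
    rw [aeval_rename]
    exact hp
  obtain ⟨q, hq⟩ := hg P hPX
  have hg0 : g ≠ 0 := by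
    rintro rfl
    exact hP0 (by rw [hq, zero_mul])
  have hq0 : q ≠ 0 := by
    rintro rfl
    exact hP0 (by rw [hq, mul_zero])
  have hdeg : degreeOf b P = 0 := by
    by_contra hne
    have hmem : b ∈ P.vars := by
      rw [vars_def, Multiset.mem_toFinset, ← Multiset.count_pos, ← degreeOf_def]
      omega
    have h1 := vars_rename (fun i : {c : σ | c ≠ b} => (i : σ)) p hmem
    rw [Finset.mem_image] at h1
    obtain ⟨c, -, hc⟩ := h1
    exact c.2 hc
  have h2 : degreeOf b P = degreeOf b g + degreeOf b q := by
    rw [hq, degreeOf_mul_eq hg0 hq0]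
  omega

/-- the remaining member is algebraic over the others -/
theorem algOf {R L : Type} [Field R] [Field L] [Algebra R L] {σ : Type}
    {X : σ → L} (b : σ) (h : AlgebraicIndepOn R X {c | c ≠ b}) (hn : ¬ AlgebraicIndependent R X) :
    IsAlgebraic (IntermediateField.adjoin R (X '' {c | c ≠ b})) (X b) := by
  by_contra ht
  apply hn
  rw [← AlgebraicIndepOn.univ]
  have hu : (Set.univ : Set σ) = insert b {c | c ≠ b} := by
    ext c
    simp only [Set.mem_univ, Set.mem_insert_iff, Set.mem_ofPred_eq, true_iff]
    exact em _
  rw [hu, AlgebraicIndepOn.insert_iff (by simp)]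
  refine ⟨h, ?_⟩
  intro h2
  exact ht (IntermediateField.isAlgebraic_adjoin_iff.2 h2)

/-- base change and transitivity -/
theorem trans' {K R L : Type} [Field K] [Field R] [Field L] [Algebra K R] [Algebra R L]
    [Algebra K L] [IsScalarTower K R L] (T : Set L) (u v : L)
    (hu : IsAlgebraic (IntermediateField.adjoin R T) u)
    (hv : IsAlgebraic (IntermediateField.adjoin K (insert u T)) v) :
    IsAlgebraic (IntermediateField.adjoin R T) v := by
  set M := IntermediateField.adjoin R T with hM
  set M' := IntermediateField.adjoin M {u} with hM'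
  have halg : Algebra.IsAlgebraic M M' := IntermediateField.isAlgebraic_adjoin_simple hu.isIntegral
  have hle : ∀ z ∈ IntermediateField.adjoin K (insert u T), z ∈ M' := by
    have h1 : (IntermediateField.adjoin K (insert u T)).toSubfield ≤ M'.toSubfield := by
      show Subfield.closure _ ≤ _
      rw [Subfield.closure_le]
      rintro z (⟨x, rfl⟩ | hz)
      · rw [IsScalarTower.algebraMap_apply K R L]
        exact M'.algebraMap_mem (algebraMap R M (algebraMap K R x))
      · rcases hz with rfl | hz
        · exact IntermediateField.mem_adjoin_simple_self M _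
        · have h2 : z ∈ M := IntermediateField.subset_adjoin R T hz
          exact M'.algebraMap_mem ⟨z, h2⟩
    exact h1
  let φ : IntermediateField.adjoin K (insert u T) →+* M' :=
    { toFun := fun z => ⟨z, hle z z.2⟩
      map_one' := rfl
      map_zero' := rfl
      map_mul' := fun _ _ => rfl
      map_add' := fun _ _ => rfl }
  have hv' : IsAlgebraic M' v := by
    obtain ⟨p, hp, hpv⟩ := hv
    refine ⟨p.map φ, (Polynomial.map_ne_zero_iff φ.injective).2 hp, ?_⟩
    rw [Polynomial.aeval_def, Polynomial.eval₂_map]
    rw [Polynomial.aeval_def] at hpv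
    exact hpv
  exact hv'.restrictScalars M

theorem t : Pool.Agent.Helper92.TN.GENI := by
  intro K Ω₁ Ω₂ σ _ _ _ _ _ _ _ _ _ _ a g X hirr hdeg h0 hind b
  have hinj : Function.Injective (algebraMap K Ω₁) := (algebraMap K Ω₁).injective
  have hindK : AlgebraicIndependent K (fun i : {i : σ // i ≠ a} => X i) :=
    hind.restrictScalars hinj
  have hgen : ∀ p : MvPolynomial σ K, aeval X p = 0 → g ∣ p := fun p hp =>
    Pool.Agent.Helper15.T3.SPC.gen hirr (hdeg a) h0 hindK hp
  have hnotK : ¬ AlgebraicIndependent K X := by
    intro h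
    exact hirr.ne_zero ((algebraicIndependent_iff.1 h) g h0)
  have hnot : ¬ AlgebraicIndependent Ω₁ X := fun h => hnotK (h.restrictScalars hinj)
  have hindOn : AlgebraicIndepOn Ω₁ X {c | c ≠ a} := hind
  have hmain : AlgebraicIndepOn Ω₁ X {c | c ≠ b} := by
    by_cases hab : b = a
    · rw [hab]
      exact hindOn
    let S : Set σ := {c | c ≠ a ∧ c ≠ b}
    have hSb : {c | c ≠ b} = insert a S := by
      ext c
      simp only [Set.mem_ofPred_eq, Set.mem_insert_iff, S]
      constructor
      · intro h
        by_cases hc : c = a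
        · exact Or.inl hc
        · exact Or.inr ⟨hc, h⟩
      · rintro (rfl | h)
        · exact fun h => hab h.symm
        · exact h.2
    have hSa : {c | c ≠ a} = insert b S := by
      ext c
      simp only [Set.mem_ofPred_eq, Set.mem_insert_iff, S]
      constructor
      · intro h
        by_cases hc : c = b
        · exact Or.inl hc
        · exact Or.inr ⟨h, hc⟩
      · rintro (rfl | h)
        · exact hab
        · exact h.1
    have hiS := hindOn
    rw [hSa, AlgebraicIndepOn.insert_iff (by simp [S])] at hiS
    obtain ⟨hiS1, hiS2⟩ := hiS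
    rw [hSb, AlgebraicIndepOn.insert_iff (by simp [S])]
    refine ⟨hiS1, ?_⟩
    intro hXa
    apply hiS2
    rw [← IntermediateField.isAlgebraic_adjoin_iff] at hXa ⊢
    have hXb := algOf b (indK hgen b (hdeg b)) hnotK
    rw [hSb, Set.image_insert_eq] at hXb
    exact trans' _ _ _ hXa hXb
  refine ⟨hmain, ?_, ?_⟩
  · intro hc
    exact Pool.Agent.Helper15.T3.SPC.not_dvd (Nat.pos_of_ne_zero (hdeg b)) (hgen _ hc)
  · have h1 := algOf b hmain hnot
    rw [Set.image_eq_range] at h1
    show X b ∈ algebraicClosure _ _
    rw [mem_algebraicClosure_iff]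
    exact h1

end Pool.Agent.Helper48.TN.GENI
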